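import Pool.Agent.K1H73.ON.Stm

/-! Project ON (owner helper73), piece CF (task 73109). -/

set_option autoImplicit false

namespace Pool.Agent.K1H26.ON

open Finset Pool.Agent.K1H73.ON

/-- the height of the vertical neighbour -/
def vy (x y : ℤ) : ℤ := if (x + y) % 2 = 0 then y + 1 else y - 1

theorem edge_at {p q : V} (h : Nbr p q) {x y : ℤ} (hv : ((x, y) : V) ∈ s(p, q)) :
    s(p, q) = s(((x, y) : V), (x + 1, y)) ∨ s(p, q) = s(((x, y) : V), (x - 1, y)) ∨
      s(p, q) = s(((x, y) : V), (x, vy x y)) := by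
  obtain ⟨p1, p2⟩ := p
  obtain ⟨q1, q2⟩ := q
  rw [Sym2.mem_iff] at hv
  simp only [Nbr, Prod.mk_sub_mk, Prod.mk.injEq, Int.even_iff] at h
  simp only [Prod.mk.injEq] at hv
  unfold vy
  rcases hv with ⟨rfl, rfl⟩ | ⟨rfl, rfl⟩
  · rcases h with ⟨h, h'⟩ | ⟨h, h'⟩ | ⟨⟨h, h'⟩, he⟩ | ⟨⟨h, h'⟩, he⟩
    · left
      have e : ((q1, q2) : V) = (x + 1, y) := by rw [Prod.mk.injEq]; omega
      rw [e]
    · right; left
      have e : ((q1, q2) : V) = (x - 1, y) := by rw [Prod.mk.injEq]; omega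
      rw [e]
    · right; right
      rw [if_pos he]
      have e : ((q1, q2) : V) = (x, y + 1) := by rw [Prod.mk.injEq]; omega
      rw [e]
    · right; right
      rw [if_neg (by omega)]
      have e : ((q1, q2) : V) = (x, y - 1) := by rw [Prod.mk.injEq]; omega
      rw [e]
  · rcases h with ⟨h, h'⟩ | ⟨h, h'⟩ | ⟨⟨h, h'⟩, he⟩ | ⟨⟨h, h'⟩, he⟩
    · right; left
      have e : ((p1, p2) : V) = (x - 1, y) := by rw [Prod.mk.injEq]; omega
      rw [e, Sym2.eq_swap]
    · left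
      have e : ((p1, p2) : V) = (x + 1, y) := by rw [Prod.mk.injEq]; omega
      rw [e, Sym2.eq_swap]
    · right; right
      rw [if_neg (by omega)]
      have e : ((p1, p2) : V) = (x, y - 1) := by rw [Prod.mk.injEq]; omega
      rw [e, Sym2.eq_swap]
    · right; right
      rw [if_pos he]
      have e : ((p1, p2) : V) = (x, y + 1) := by rw [Prod.mk.injEq]; omega
      rw [e, Sym2.eq_swap]

theorem mem_hex (c : V) (e : Sym2 V) : e ∈ hex c ↔
    e = s((c.1, c.2), (c.1 + 1, c.2)) ∨ e = s((c.1 + 1, c.2), (c.1 + 2, c.2)) ∨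
    e = s((c.1 + 2, c.2), (c.1 + 2, c.2 + 1)) ∨ e = s((c.1 + 2, c.2 + 1), (c.1 + 1, c.2 + 1)) ∨
    e = s((c.1 + 1, c.2 + 1), (c.1, c.2 + 1)) ∨ e = s((c.1, c.2 + 1), (c.1, c.2)) := by
  unfold hex
  rw [Finset.mem_image]
  constructor
  · rintro ⟨i, hi, rfl⟩
    rw [Finset.mem_range] at hi
    interval_cases i <;> simp [side, cor]
  · rintro (rfl | rfl | rfl | rfl | rfl | rfl)
    · exact ⟨0, by simp, rfl⟩
    · exact ⟨1, by simp, rfl⟩
    · exact ⟨2, by simp, rfl⟩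
    · exact ⟨3, by simp, rfl⟩
    · exact ⟨4, by simp, rfl⟩
    · exact ⟨5, by simp, rfl⟩

theorem deg_eq (ω : Finset (Sym2 V)) (hE : ∀ e ∈ ω, ∃ p q, e = s(p, q) ∧ Nbr p q) (x y : ℤ) :
    deg ω (x, y) = (if s(((x, y) : V), (x + 1, y)) ∈ ω then 1 else 0) +
      ((if s(((x, y) : V), (x - 1, y)) ∈ ω then 1 else 0) +
      (if s(((x, y) : V), (x, vy x y)) ∈ ω then 1 else 0)) := by
  classical
  have hs : ω.filter (fun e => ((x, y) : V) ∈ e) = ({s(((x, y) : V), (x + 1, y)),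
      s(((x, y) : V), (x - 1, y)), s(((x, y) : V), (x, vy x y))} : Finset (Sym2 V)).filter
        (fun e => e ∈ ω) := by
    ext e
    rw [Finset.mem_filter, Finset.mem_filter, Finset.mem_insert, Finset.mem_insert,
      Finset.mem_singleton]
    constructor
    · rintro ⟨he, hv⟩
      obtain ⟨p, q, rfl, hn⟩ := hE e he
      exact ⟨edge_at hn hv, he⟩
    · rintro ⟨h | h | h, he⟩ <;> exact ⟨he, by rw [h]; exact Sym2.mem_mk_left _ _⟩
  have d1 : s(((x, y) : V), (x + 1, y)) ≠ s(((x, y) : V), (x - 1, y)) := by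
    intro h
    simp only [Sym2.eq_iff, Prod.mk.injEq] at h
    omega
  have d2 : s(((x, y) : V), (x + 1, y)) ≠ s(((x, y) : V), (x, vy x y)) := by
    intro h
    simp only [Sym2.eq_iff, Prod.mk.injEq] at h
    omega
  have d3 : s(((x, y) : V), (x - 1, y)) ≠ s(((x, y) : V), (x, vy x y)) := by
    intro h
    simp only [Sym2.eq_iff, Prod.mk.injEq] at h
    omega
  have hd : deg ω (x, y) = (ω.filter (fun e => ((x, y) : V) ∈ e)).card := by
    unfold deg
    congr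
  rw [hd, hs, Finset.card_filter, Finset.sum_insert, Finset.sum_insert, Finset.sum_singleton]
  · rw [Finset.mem_singleton]; exact d3
  · rw [Finset.mem_insert, Finset.mem_singleton]
    rintro (h | h)
    · exact d1 h
    · exact d2 h

/-- corners, numerically -/
theorem cor_cases (c : V) (x y : ℤ) : (∃ i < 6, ((x, y) : V) = cor c i) ↔
    (x = c.1 ∧ y = c.2) ∨ (x = c.1 + 1 ∧ y = c.2) ∨ (x = c.1 + 2 ∧ y = c.2) ∨
    (x = c.1 + 2 ∧ y = c.2 + 1) ∨ (x = c.1 + 1 ∧ y = c.2 + 1) ∨ (x = c.1 ∧ y = c.2 + 1) := by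
  obtain ⟨c1, c2⟩ := c
  constructor
  · rintro ⟨i, hi, h⟩
    interval_cases i <;> simp [cor] at h <;> simp [h.1, h.2]
  · rintro (⟨rfl, rfl⟩ | ⟨rfl, rfl⟩ | ⟨rfl, rfl⟩ | ⟨rfl, rfl⟩ | ⟨rfl, rfl⟩ | ⟨rfl, rfl⟩)
    · exact ⟨0, by norm_num, rfl⟩
    · exact ⟨1, by norm_num, rfl⟩
    · exact ⟨2, by norm_num, rfl⟩
    · exact ⟨3, by norm_num, rfl⟩
    · exact ⟨4, by norm_num, rfl⟩
    · exact ⟨5, by norm_num, rfl⟩

theorem hex_corner {c : V} {e : Sym2 V} (he : e ∈ hex c) {v : V} (hv : v ∈ e) :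
    ∃ i < 6, v = cor c i := by
  unfold hex at he
  rw [Finset.mem_image] at he
  obtain ⟨i, hi, rfl⟩ := he
  rw [Finset.mem_range] at hi
  unfold side at hv
  rw [Sym2.mem_iff] at hv
  rcases hv with rfl | rfl
  · exact ⟨i, hi, rfl⟩
  · by_cases h6 : i + 1 < 6
    · exact ⟨i + 1, h6, rfl⟩
    · have : i = 5 := by omega
      subst this
      exact ⟨0, by norm_num, rfl⟩

theorem not_corner (c : V) (x y : ℤ) (h : ¬ ∃ i < 6, ((x, y) : V) = cor c i) (w : V) :
    s(((x, y) : V), w) ∉ hex c := fun h' => h (hex_corner h' (Sym2.mem_mk_left _ _))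

theorem not_corner' (c : V) (x y : ℤ) (h : ¬ ∃ i < 6, ((x, y) : V) = cor c i) (w : V) :
    s(w, ((x, y) : V)) ∉ hex c := fun h' => h (hex_corner h' (Sym2.mem_mk_right _ _))

theorem side_mem (c : V) (i : ℕ) (hi : i < 6) : side c i ∈ hex c :=
  Finset.mem_image_of_mem _ (Finset.mem_range.mpr hi)

theorem corner (c : V) (hc : Even (c.1 + c.2)) (x y : ℤ) (h : ∃ i < 6, ((x, y) : V) = cor c i) :
    (s(((x, y) : V), (x + 1, y)) ∈ hex c ∧ s(((x, y) : V), (x - 1, y)) ∈ hex c ∧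
      s(((x, y) : V), (x, vy x y)) ∉ hex c) ∨
    (s(((x, y) : V), (x + 1, y)) ∈ hex c ∧ s(((x, y) : V), (x - 1, y)) ∉ hex c ∧
      s(((x, y) : V), (x, vy x y)) ∈ hex c) ∨
    (s(((x, y) : V), (x + 1, y)) ∉ hex c ∧ s(((x, y) : V), (x - 1, y)) ∈ hex c ∧
      s(((x, y) : V), (x, vy x y)) ∈ hex c) := by
  rw [cor_cases] at h
  rw [Int.even_iff] at hc
  obtain ⟨c1, c2⟩ := c
  simp only at h hc
  unfold vy
  rcases h with ⟨rfl, rfl⟩ | ⟨rfl, rfl⟩ | ⟨rfl, rfl⟩ | ⟨rfl, rfl⟩ | ⟨rfl, rfl⟩ | ⟨rfl, rfl⟩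
  · right; left
    rw [if_pos (by omega)]
    refine ⟨side_mem _ 0 (by norm_num), not_corner' _ _ _ ?_ _, ?_⟩
    · rw [cor_cases]; simp only; omega
    · have := side_mem (x, y) 5 (by norm_num)
      rw [Sym2.eq_swap]; exact this
  · left
    rw [if_neg (by omega)]
    refine ⟨?_, ?_, not_corner' _ _ _ ?_ _⟩
    · have := side_mem (c1, y) 1 (by norm_num)
      have e : c1 + 1 + 1 = c1 + 2 := by ring
      rw [e]; exact this
    · have := side_mem (c1, y) 0 (by norm_num)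
      have e : c1 + 1 - 1 = c1 := by ring
      rw [e, Sym2.eq_swap]; exact this
    · rw [cor_cases]; simp only; omega
  · right; right
    rw [if_pos (by omega)]
    refine ⟨not_corner' _ _ _ ?_ _, ?_, ?_⟩
    · rw [cor_cases]; simp only; omega
    · have := side_mem (c1, y) 1 (by norm_num)
      have e : c1 + 2 - 1 = c1 + 1 := by ring
      rw [e, Sym2.eq_swap]; exact this
    · exact side_mem (c1, y) 2 (by norm_num)
  · right; right
    rw [if_neg (by omega)]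
    refine ⟨not_corner' _ _ _ ?_ _, ?_, ?_⟩
    · rw [cor_cases]; simp only; omega
    · have := side_mem (c1, c2) 3 (by norm_num)
      have e : c1 + 2 - 1 = c1 + 1 := by ring
      rw [e]; exact this
    · have := side_mem (c1, c2) 2 (by norm_num)
      have e : c2 + 1 - 1 = c2 := by ring
      rw [e, Sym2.eq_swap]; exact this
  · left
    rw [if_pos (by omega)]
    refine ⟨?_, ?_, not_corner' _ _ _ ?_ _⟩
    · have := side_mem (c1, c2) 3 (by norm_num)
      have e : c1 + 1 + 1 = c1 + 2 := by ring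
      rw [e, Sym2.eq_swap]; exact this
    · have := side_mem (c1, c2) 4 (by norm_num)
      have e : c1 + 1 - 1 = c1 := by ring
      rw [e]; exact this
    · rw [cor_cases]; simp only; omega
  · right; left
    rw [if_neg (by omega)]
    refine ⟨?_, not_corner' _ _ _ ?_ _, ?_⟩
    · have := side_mem (x, c2) 4 (by norm_num)
      rw [Sym2.eq_swap]; exact this
    · rw [cor_cases]; simp only; omega
    · have := side_mem (x, c2) 5 (by norm_num)
      have e : c2 + 1 - 1 = c2 := by ring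
      rw [e]; exact this

theorem t_CF : CF := by
  classical
  intro D a b ω c hω hc hD
  obtain ⟨h1, ⟨ha, hb⟩, h3⟩ := hω
  have hE : ∀ e ∈ ω, ∃ p q, e = s(p, q) ∧ Nbr p q := by
    intro e he
    obtain ⟨p, q, h, hn, -, -⟩ := h1 e he
    exact ⟨p, q, h, hn⟩
  have hhex : ∀ e ∈ hex c, ∃ p q, e = s(p, q) ∧ Nbr p q ∧ p ∈ D ∧ q ∈ D := by
    intro e he
    have c0 := (hD 0 (by norm_num)).1
    have c1 := (hD 1 (by norm_num)).1
    have c2 := (hD 2 (by norm_num)).1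
    have c3 := (hD 3 (by norm_num)).1
    have c4 := (hD 4 (by norm_num)).1
    have c5 := (hD 5 (by norm_num)).1
    rw [Int.even_iff] at hc
    rw [mem_hex] at he
    rcases he with rfl | rfl | rfl | rfl | rfl | rfl
    · refine ⟨_, _, rfl, ?_, c0, c1⟩
      simp only [Nbr, Prod.mk_sub_mk, Prod.mk.injEq, Int.even_iff]; omega
    · refine ⟨_, _, rfl, ?_, c1, c2⟩
      simp only [Nbr, Prod.mk_sub_mk, Prod.mk.injEq, Int.even_iff]; omega
    · refine ⟨_, _, rfl, ?_, c2, c3⟩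
      simp only [Nbr, Prod.mk_sub_mk, Prod.mk.injEq, Int.even_iff]; omega
    · refine ⟨_, _, rfl, ?_, c3, c4⟩
      simp only [Nbr, Prod.mk_sub_mk, Prod.mk.injEq, Int.even_iff]; omega
    · refine ⟨_, _, rfl, ?_, c4, c5⟩
      simp only [Nbr, Prod.mk_sub_mk, Prod.mk.injEq, Int.even_iff]; omega
    · refine ⟨_, _, rfl, ?_, c5, c0⟩
      simp only [Nbr, Prod.mk_sub_mk, Prod.mk.injEq, Int.even_iff]; omega
  have hall : ∀ e ∈ symmDiff ω (hex c), ∃ p q, e = s(p, q) ∧ Nbr p q ∧ p ∈ D ∧ q ∈ D := by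
    intro e he
    rw [Finset.mem_symmDiff] at he
    rcases he with ⟨he, -⟩ | ⟨he, -⟩
    · exact h1 e he
    · exact hhex e he
  have hE' : ∀ e ∈ symmDiff ω (hex c), ∃ p q, e = s(p, q) ∧ Nbr p q := by
    intro e he
    obtain ⟨p, q, h, hn, -, -⟩ := hall e he
    exact ⟨p, q, h, hn⟩
  have hnc : ∀ x y : ℤ, (¬ ∃ i < 6, ((x, y) : V) = cor c i) →
      deg (symmDiff ω (hex c)) (x, y) = deg ω (x, y) := by
    intro x y h
    rw [deg_eq _ hE', deg_eq _ hE]
    simp only [Finset.mem_symmDiff, not_corner c x y h, not_false_eq_true, and_true, false_and,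
      or_false]
  have hna : ¬ ∃ i < 6, a = cor c i := by
    rintro ⟨i, hi, h⟩
    exact (hD i hi).2.1 h.symm
  have hnb : ¬ ∃ i < 6, b = cor c i := by
    rintro ⟨i, hi, h⟩
    exact (hD i hi).2.2 h.symm
  refine ⟨hall, ⟨?_, ?_⟩, ?_⟩
  · obtain ⟨a1, a2⟩ := a
    rw [hnc a1 a2 hna]; exact ha
  · obtain ⟨b1, b2⟩ := b
    rw [hnc b1 b2 hnb]; exact hb
  · rintro ⟨x, y⟩ hva hvb
    have h4 := h3 (x, y) hva hvb
    by_cases h : ∃ i < 6, ((x, y) : V) = cor c i
    · rw [deg_eq _ hE] at h4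
      rw [deg_eq _ hE']
      simp only [Finset.mem_symmDiff]
      rcases corner c hc x y h with ⟨e1, e2, e3⟩ | ⟨e1, e2, e3⟩ | ⟨e1, e2, e3⟩ <;>
        simp only [e1, e2, e3, not_true_eq_false, not_false_eq_true, and_true, true_and,
          and_false, false_and, or_false, false_or] <;>
        by_cases f1 : s(((x, y) : V), (x + 1, y)) ∈ ω <;>
        by_cases f2 : s(((x, y) : V), (x - 1, y)) ∈ ω <;>
        by_cases f3 : s(((x, y) : V), (x, vy x y)) ∈ ω <;>
        simp [f1, f2, f3] at h4 ⊢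
    · rw [hnc x y h]; exact h4

end Pool.Agent.K1H26.ON
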